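import Mathlib
import Pool.Agent.Lib_helper99.Assembly

/-!
# A planar domain whose Hardy space `H²` is finite-dimensional but not trivial

The domain is `D = {w : w ^ 172 ∉ E}`, `E = ⋃ k ≥ 0, 2 ^ (86 k) (1 + J / 16)`, where `J ⊆ [-4, 4]` is
the Julia set of `z ^ 2 - 12`. The function `w` belongs to `H²(D)`: an explicit harmonic majorant of
`|w| ^ 2` is built from the Green function of `J`. On the other hand every `f ∈ H²(D)` satisfies
`|f(w)| ^ 2 ≤ C (1 + |w| ^ 344) ^ 2 / |Im w ^ 172|` by Harnack's inequality; since `J` has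
`1/2`-dimensional Hausdorff measure zero this makes `ℂ \ D` removable for `f`, and then `f` is a
polynomial of degree at most `258`.
-/

set_option autoImplicit false

namespace Pool.Agent.Results.MP_4874ca_an.NoDichotomy

open Complex InnerProductSpace Set Metric

/-- The Hardy space `H²(D)`: the holomorphic functions `f` on `D` such that `|f| ^ 2 ≤ u` on `D`
for some harmonic function `u` on `D`. (A function on `D` is holomorphic if it is the restriction
to `D` of a function `F : ℂ → ℂ` that is complex differentiable on `D`.) -/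
def H2 (D : Set ℂ) : Submodule ℂ (D → ℂ) where
  carrier := {f | ∃ F : ℂ → ℂ, DifferentiableOn ℂ F D ∧ (∀ z : D, F z = f z) ∧
    ∃ u : ℂ → ℝ, HarmonicOnNhd u D ∧ ∀ z ∈ D, ‖F z‖ ^ 2 ≤ u z}
  zero_mem' := ⟨0, differentiableOn_const 0, fun _ => rfl, 0, fun _ _ => harmonicAt_const 0,
    fun z _ => by simp⟩
  add_mem' := by
    rintro f g ⟨F, hF, hFf, u, hu, hub⟩ ⟨G, hG, hGg, v, hv, hvb⟩
    refine ⟨F + G, hF.add hG, fun z => by simp [hFf z, hGg z], (2 : ℝ) • (u + v), ?_, ?_⟩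
    · intro z hz
      exact ((hu z hz).add (hv z hz)).const_smul
    · intro z hz
      have h1 := hub z hz
      have h2 := hvb z hz
      have h3 : ‖F z + G z‖ ≤ ‖F z‖ + ‖G z‖ := norm_add_le _ _
      have h4 : ‖F z + G z‖ ^ 2 ≤ (‖F z‖ + ‖G z‖) ^ 2 := pow_le_pow_left₀ (norm_nonneg _) h3 2
      simp only [Pi.add_apply, Pi.smul_apply, smul_eq_mul]
      nlinarith [sq_nonneg (‖F z‖ - ‖G z‖)]
  smul_mem' := by
    rintro c f ⟨F, hF, hFf, u, hu, hub⟩
    refine ⟨c • F, hF.const_smul c, fun z => by simp [hFf z], (‖c‖ ^ 2 : ℝ) • u, ?_, ?_⟩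
    · intro z hz
      exact (hu z hz).const_smul
    · intro z hz
      simp only [Pi.smul_apply, smul_eq_mul, norm_mul, mul_pow]
      exact mul_le_mul_of_nonneg_left (hub z hz) (sq_nonneg _)

open Pool.Agent.LibHelper99.Hardy

/-- the monomials on `D1` -/
noncomputable def mono (n : Fin 259) : D1 → ℂ := fun z => (z : ℂ) ^ (n : ℕ)

theorem H2_le : H2 D1 ≤ Submodule.span ℂ (Set.range mono) := by
  rintro f ⟨F, hF, hFf, u, hu, hub⟩
  have hpos : ∀ w ∈ D1, 0 ≤ u w := fun w hw => (sq_nonneg _).trans (hub w hw)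
  obtain ⟨C, hC, hgrow⟩ := growth hu hpos
  obtain ⟨G, hG, hGF⟩ := glue dense_D1 (local_ext hF hu hub)
  have hb : ∀ w : ℂ, (w ^ 172).im ≠ 0 →
      ‖G w‖ ^ 2 ≤ C * (1 + ‖w ^ 172‖ ^ 2) ^ 2 / |(w ^ 172).im| := by
    intro w hw
    have hD : w ∈ D1 := mem_D2_of_im hw
    rw [hGF w hD]
    exact (hub w hD).trans (hgrow w hw)
  have hpoly := eq_poly hG (fun n hn => iteratedDeriv_zero hG hC hb hn)
  have hf : f = ∑ n : Fin 259, (((n : ℕ).factorial : ℂ)⁻¹ * iteratedDeriv (n : ℕ) G 0) • mono n := by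
    funext z
    rw [← hFf z, ← hGF z z.2, hpoly z, Finset.sum_range]
    simp [mono, Finset.sum_apply]
  rw [hf]
  exact Submodule.sum_mem _ (fun n _ => Submodule.smul_mem _ _ (Submodule.subset_span ⟨n, rfl⟩))

theorem one_mem : (fun _ => 1 : D1 → ℂ) ∈ H2 D1 :=
  ⟨fun _ => 1, differentiableOn_const 1, fun _ => rfl, fun _ => 1, fun _ _ => harmonicAt_const 1,
    fun z _ => by simp⟩

theorem id_mem : (fun z => (z : ℂ) : D1 → ℂ) ∈ H2 D1 := by
  refine ⟨fun z => z, differentiableOn_id, fun _ => rfl, fun w => 3 * U0 (w ^ 172) + 60, ?_,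
    fun z _ => majorant z⟩
  intro w hw
  have h1 : HarmonicAt (fun w : ℂ => U0 (w ^ 172)) w :=
    harmonicAt_comp (φ := fun w : ℂ => w ^ 172) (U0_harmonic hw) (by fun_prop)
  have h2 : HarmonicAt ((3 : ℝ) • fun w : ℂ => U0 (w ^ 172)) w := h1.const_smul
  exact h2.add (harmonicAt_const 60)

theorem zero_mem_D1 : (0 : ℂ) ∈ D1 := small_mem_D1 (by simp)

theorem half_mem_D1 : (1 / 2 : ℂ) ∈ D1 := small_mem_D1 (by simp)

/-- There is a planar domain `D` such that `H²(D)` contains a nonconstant function and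
`2 ≤ dim H²(D) < ∞`. -/
theorem result : ∃ D : Set ℂ, IsOpen D ∧ IsConnected D ∧
    (∃ f ∈ H2 D, ¬ ∃ c : ℂ, ∀ z, f z = c) ∧
    Module.Finite ℂ (H2 D) ∧ 2 ≤ Module.finrank ℂ (H2 D) := by
  have hfin : Module.Finite ℂ (H2 D1) := by
    have : FiniteDimensional ℂ (Submodule.span ℂ (Set.range mono)) :=
      FiniteDimensional.span_of_finite ℂ (Set.finite_range mono)
    exact Submodule.finiteDimensional_of_le H2_le
  refine ⟨D1, isOpen_D1, isConnected_D1, ⟨_, id_mem, ?_⟩, hfin, ?_⟩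
  · rintro ⟨c, hc⟩
    have h1 := hc ⟨0, zero_mem_D1⟩
    have h2 := hc ⟨1 / 2, half_mem_D1⟩
    simp only at h1 h2
    rw [← h1] at h2
    norm_num at h2
  · let v : Fin 2 → H2 D1 := ![⟨_, one_mem⟩, ⟨_, id_mem⟩]
    have hli : LinearIndependent ℂ v := by
      rw [LinearIndependent.pair_iff]
      intro a b hab
      have h1 := congrArg (fun f : H2 D1 => (f : D1 → ℂ) ⟨0, zero_mem_D1⟩) hab
      have h2 := congrArg (fun f : H2 D1 => (f : D1 → ℂ) ⟨1 / 2, half_mem_D1⟩) hab
      simp at h1 h2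
      rw [h1] at h2
      refine ⟨h1, ?_⟩
      simpa using h2
    have := hli.fintype_card_le_finrank
    simpa using this

end Pool.Agent.Results.MP_4874ca_an.NoDichotomy
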